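import Mathlib
import Pool.Agent.Y937.MF.Embed

set_option autoImplicit false

namespace Pool.Agent.Results.MP_3c4aa6_nt.PositiveDimensionSpectrum

open MeasureTheory

/-- The Weyl sum of degree `d`; the coordinate `x j` multiplies the power `j + 1` of `n`,
for `0 ≤ j < d`, and `n` runs over `1 ≤ n ≤ N`. -/
noncomputable def weylSum {d : ℕ} (x : Fin d → ℝ) (N : ℕ) : ℂ :=
  ∑ n ∈ Finset.Icc 1 N, Complex.exp (2 * Real.pi * Complex.I *
    ((∑ j : Fin d, x j * (n : ℝ) ^ ((j : ℕ) + 1) : ℝ) : ℂ))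

/-- The level set of the growth exponent: the points `x` of `[0,1)^d` for which the limsup of
`log |S_d(x; N)| / log N` is `α` and the infimum of the `s > 0` with `|S_d(x; N)| = O(N ^ s)` is
`α`. -/
def Omega (d : ℕ) (α : ℝ) : Set (Fin d → ℝ) :=
  {x | (∀ j, 0 ≤ x j ∧ x j < 1) ∧
    Filter.limsup (fun N : ℕ => Real.log ‖weylSum x N‖ / Real.log N) Filter.atTop = α ∧
    sInf {s : ℝ | 0 < s ∧
      (fun N : ℕ => weylSum x N) =O[Filter.atTop] fun N : ℕ => (N : ℝ) ^ s} = α}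

/-- For every `d ≥ 2` there is a measurable set of exponents of positive Lebesgue measure (it
contains the whole interval `(2/3, 1)`) all of whose level sets have positive Hausdorff
dimension. -/
theorem result : ∀ d : ℕ, 2 ≤ d → ∃ A : Set ℝ, Set.Ioo (2 / 3) 1 ⊆ A ∧ A ⊆ Set.Icc 0 1 ∧
    MeasurableSet A ∧ 0 < volume A ∧ ∀ α ∈ A, 0 < dimH (Omega d α) := by
  intro d hd
  refine ⟨Set.Ioo (2 / 3) 1, subset_rfl, fun a ha => ⟨by linarith [ha.1], ha.2.le⟩,
    measurableSet_Ioo, ?_, ?_⟩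
  · rw [Real.volume_Ioo]; norm_num
  · intro α hα
    obtain ⟨h1, h2⟩ := hα
    set τ : ℝ := 1 / (1 - α) with hτdef
    have h3 : 0 < 1 - α := by linarith
    have hτ : 3 < τ := by
      rw [hτdef, lt_div_iff₀ h3]; linarith
    have hα : 1 - 1 / τ = α := by rw [hτdef]; field_simp; ring
    obtain ⟨C, hC1, hC⟩ := Pool.Agent.Y937.MF.PP_linear τ hτ
    have hdim := Pool.Agent.Y937.MF.dim_pos (Pool.Agent.Y937.MF.PP τ)
      (Pool.Agent.Y937.MF.PP_strict τ) C hC1 hC
    refine lt_of_lt_of_le hdim ((Pool.Agent.Y937.MF.dimH_emb d hd _).trans (dimH_mono ?_))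
    rintro _ ⟨_, ⟨b, rfl⟩, rfl⟩
    have hmem := Pool.Agent.Y937.MF.phi_mem τ hτ b
    have hgr := Pool.Agent.Y937.MF.growth_phi τ hτ b
    have hW : ∀ N, weylSum (Pool.Agent.Y937.MF.emb d (Pool.Agent.Y937.MF.phi (Pool.Agent.Y937.MF.PP τ) b)) N =
        Pool.Agent.Y937.MF.W (Pool.Agent.Y937.MF.phi (Pool.Agent.Y937.MF.PP τ) b) N :=
      fun N => Pool.Agent.Y937.MF.emb_W d hd _ N
    rw [hα] at hgr
    refine ⟨fun j => ?_, ?_, ?_⟩
    · unfold Pool.Agent.Y937.MF.emb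
      split_ifs
      · exact hmem
      · norm_num
    · simp only [hW]; exact hgr.1
    · simp only [hW]; exact hgr.2

end Pool.Agent.Results.MP_3c4aa6_nt.PositiveDimensionSpectrum
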